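import Pool.Agent.Helper74.CO.Goals

/-!
PROJECT CO (MP_c5396e_co), packet CSR + GEN.
-/

set_option autoImplicit false

namespace Pool.Agent.Helper22.CO

open Finset

theorem norm_chi {F : Type} [Field F] [Fintype F] [DecidableEq F] (χ : MulChar F ℂ) {x : F}
    (hx : x ≠ 0) : ‖χ x‖ = 1 := by
  have h1 : χ x ^ (Fintype.card F - 1) = 1 := by
    rw [← map_pow, FiniteField.pow_card_sub_one_eq_one x hx, map_one]
  have h2 : 1 < Fintype.card F := Fintype.one_lt_card
  exact Complex.norm_eq_one_of_pow_eq_one h1 (by omega)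

theorem t_CSR : ∀ (F : Type) [Field F] [Fintype F] [DecidableEq F],
    Pool.Agent.Helper74.CO.CSR F := by
  intro F _ _ _ χ h
  have h0 : ∑ x, χ x * h x = ∑ x ∈ univ.erase (0 : F), χ x * h x := by
    rw [← Finset.add_sum_erase univ _ (mem_univ (0 : F)), MulChar.map_zero, zero_mul, zero_add]
  set S : ℂ := ∑ x ∈ univ.erase (0 : F), χ x * h x with hS
  have h1 : S * (starRingEnd ℂ) S = ∑ r ∈ univ.erase (0 : F), (starRingEnd ℂ) (χ r) *
      ∑ x ∈ univ.erase (0 : F), h x * (starRingEnd ℂ) (h (r * x)) := by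
    rw [hS, map_sum, Finset.sum_mul]
    have h2 : ∀ x ∈ univ.erase (0 : F), χ x * h x *
        ∑ x' ∈ univ.erase (0 : F), (starRingEnd ℂ) (χ x' * h x') =
        ∑ r ∈ univ.erase (0 : F), (starRingEnd ℂ) (χ r) * (h x * (starRingEnd ℂ) (h (r * x))) := by
      intro x hx
      have hx0 : x ≠ 0 := Finset.ne_of_mem_erase hx
      rw [Finset.mul_sum]
      refine (Finset.sum_bij' (fun r _ => r * x) (fun x' _ => x' / x) ?_ ?_ ?_ ?_ ?_).symm
      · intro r hr
        exact Finset.mem_erase.mpr ⟨mul_ne_zero (Finset.ne_of_mem_erase hr) hx0, mem_univ _⟩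
      · intro x' hx'
        exact Finset.mem_erase.mpr ⟨div_ne_zero (Finset.ne_of_mem_erase hx') hx0, mem_univ _⟩
      · intro r _
        exact mul_div_cancel_right₀ r hx0
      · intro x' _
        exact div_mul_cancel₀ x' hx0
      · intro r hr
        have h3 : χ x * (starRingEnd ℂ) (χ x) = 1 := by
          rw [Complex.mul_conj, Complex.normSq_eq_norm_sq, norm_chi χ hx0]
          norm_num
        rw [map_mul χ, map_mul, map_mul]
        calc (starRingEnd ℂ) (χ r) * (h x * (starRingEnd ℂ) (h (r * x)))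
            = (χ x * (starRingEnd ℂ) (χ x)) *
              ((starRingEnd ℂ) (χ r) * (h x * (starRingEnd ℂ) (h (r * x)))) := by
              rw [h3, one_mul]
          _ = _ := by ring
    rw [Finset.sum_congr rfl h2, Finset.sum_comm]
    refine Finset.sum_congr rfl fun r _ => ?_
    rw [Finset.mul_sum]
  have h2 : ‖S‖ ^ 2 = ‖S * (starRingEnd ℂ) S‖ := by
    rw [norm_mul, RCLike.norm_conj, sq]
  rw [h0, h2, h1]
  refine le_trans (norm_sum_le _ _) (Finset.sum_le_sum fun r hr => ?_)
  rw [norm_mul, RCLike.norm_conj, norm_chi χ (Finset.ne_of_mem_erase hr), one_mul]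

theorem t_GEN : ∀ (F : Type) [Field F] [Fintype F] [DecidableEq F],
    Pool.Agent.Helper74.CO.GEN F := by
  intro F _ _ _ χ h E A T hh hE hT hT2 hA hC
  refine le_trans (t_CSR F χ h) ?_
  set q : ℝ := (Fintype.card F : ℝ) with hq
  have hq1 : (1 : ℝ) ≤ q := by
    rw [hq]
    exact_mod_cast Fintype.card_pos
  set C : F → ℝ := fun r =>
    ‖∑ x ∈ univ.erase (0 : F), h x * (starRingEnd ℂ) (h (r * x))‖ with hCdef
  set R : Finset F := (univ.erase (0 : F)).filter (fun r => r ∉ E) with hR
  have hcard : ((univ.erase (0 : F)).card : ℝ) ≤ q := by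
    rw [hq]
    exact_mod_cast Finset.card_le_univ _
  have hRcard : (R.card : ℝ) ≤ q := by
    rw [hq]
    exact_mod_cast Finset.card_le_univ _
  have hsplit : ∑ r ∈ univ.erase (0 : F), C r =
      ∑ r ∈ (univ.erase (0 : F)).filter (fun r => r ∈ E), C r + ∑ r ∈ R, C r :=
    (Finset.sum_filter_add_sum_filter_not _ _ _).symm
  -- the exceptional ones
  have hCle : ∀ r, C r ≤ q := by
    intro r
    refine le_trans (norm_sum_le _ _) ?_
    refine le_trans (Finset.sum_le_sum (g := fun _ => (1 : ℝ)) fun x _ => ?_) ?_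
    · rw [norm_mul, RCLike.norm_conj]
      exact mul_le_one₀ (hh _) (norm_nonneg _) (hh _)
    · rw [Finset.sum_const, nsmul_eq_mul, mul_one]
      exact hcard
  have hexc : ∑ r ∈ (univ.erase (0 : F)).filter (fun r => r ∈ E), C r ≤ 3 * q := by
    refine le_trans (Finset.sum_le_sum (g := fun _ => q) fun r _ => hCle r) ?_
    rw [Finset.sum_const, nsmul_eq_mul]
    refine mul_le_mul_of_nonneg_right ?_ (by linarith)
    have h1 : ((univ.erase (0 : F)).filter (fun r => r ∈ E)).card ≤ 3 :=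
      le_trans (Finset.card_le_card fun r hr => (Finset.mem_filter.mp hr).2) hE
    exact_mod_cast h1
  -- the others
  have hreg : ∑ r ∈ R, C r ≤ ∑ r ∈ R, T (A r) + 2 * q := by
    have h1 : ∑ r ∈ R, C r ≤ ∑ r ∈ R, (T (A r) + 2) := by
      refine Finset.sum_le_sum fun r hr => ?_
      have h2 := Finset.mem_filter.mp hr
      exact hC r (Finset.ne_of_mem_erase h2.1) h2.2
    rw [Finset.sum_add_distrib, Finset.sum_const, nsmul_eq_mul] at h1
    linarith
  -- second moment
  have hsq : ∑ r ∈ R, T (A r) ^ 2 ≤ 2 * q ^ 2 := by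
    rw [Finset.sum_comp (fun z => T z ^ 2) A]
    calc ∑ z ∈ R.image A, #{r ∈ R | A r = z} • T z ^ 2
        ≤ ∑ z ∈ R.image A, 2 * T z ^ 2 := by
          refine Finset.sum_le_sum fun z _ => ?_
          rw [nsmul_eq_mul]
          refine mul_le_mul_of_nonneg_right ?_ (sq_nonneg _)
          have h1 := hA z
          rw [← Finset.filter_filter] at h1
          exact_mod_cast h1
      _ ≤ ∑ z, 2 * T z ^ 2 := Finset.sum_le_sum_of_subset_of_nonneg (Finset.subset_univ _)
          (fun z _ _ => by positivity)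
      _ ≤ 2 * q ^ 2 := by
          rw [← Finset.mul_sum]
          linarith
  have hcs : (∑ r ∈ R, T (A r)) ^ 2 ≤ q * (2 * q ^ 2) := by
    have h1 := sq_sum_le_card_mul_sum_sq (s := R) (f := fun r => T (A r))
    refine le_trans h1 ?_
    exact mul_le_mul hRcard hsq (Finset.sum_nonneg fun _ _ => sq_nonneg _) (by linarith)
  have hs1 : 1 ≤ √q := by
    rw [Real.one_le_sqrt]
    exact hq1
  have hss : √q * √q = q := Real.mul_self_sqrt (by linarith)
  have hsum : ∑ r ∈ R, T (A r) ≤ 3 / 2 * (q * √q) := by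
    refine le_of_sq_le_sq ?_ (by positivity)
    refine le_trans hcs ?_
    have h1 : (3 / 2 * (q * √q)) ^ 2 = 9 / 4 * (q ^ 2 * q) := by
      calc (3 / 2 * (q * √q)) ^ 2 = 9 / 4 * (q ^ 2 * (√q * √q)) := by ring
        _ = _ := by rw [hss]
    rw [h1]
    nlinarith [mul_nonneg (sq_nonneg q) (by linarith : (0 : ℝ) ≤ q)]
  rw [hsplit]
  have hfin : 5 * q ≤ 5 * (q * √q) := by
    nlinarith
  have h7 : 7 * q * √q = 7 * (q * √q) := by ring
  rw [h7]
  have hpos : 0 ≤ q * √q := by positivity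
  linarith

end Pool.Agent.Helper22.CO
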